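import Pool.Agent.Helper660.FU.Limit

set_option autoImplicit false

namespace Pool.Agent.Results.MP_df5da3_co.FurediBound

/-- `H` has a repeated disjoint union: edges `A, B, C, D` with `A ∩ B = C ∩ D = ∅`,
`A ∪ B = C ∪ D` and `{A, B} ≠ {C, D}`. -/
def RepeatedUnion {n : ℕ} (H : Finset (Finset (Fin n))) : Prop :=
  ∃ A ∈ H, ∃ B ∈ H, ∃ C ∈ H, ∃ D ∈ H,
    A ∩ B = ∅ ∧ C ∩ D = ∅ ∧ A ∪ B = C ∪ D ∧ ({A, B} : Set (Finset (Fin n))) ≠ {C, D}

/-- `f(n;3)`: the least `m` such that every 3-uniform hypergraph on `n` vertices with at least `m`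
edges has a repeated disjoint union. -/
noncomputable def f (n : ℕ) : ℕ :=
  sInf {m : ℕ | ∀ H : Finset (Finset (Fin n)),
    (∀ e ∈ H, e.card = 3) → m ≤ H.card → RepeatedUnion H}

theorem rep_iff {n : ℕ} (H : Finset (Finset (Fin n))) :
    Pool.Agent.Helper660.FU.Rep H → RepeatedUnion H := by
  rintro ⟨A, hA, B, hB, C, hC, D, hD, h1, h2, h3, h4, h5⟩
  refine ⟨A, hA, B, hB, C, hC, D, hD, Finset.disjoint_iff_inter_eq_empty.1 h1,
    Finset.disjoint_iff_inter_eq_empty.1 h2, h3, ?_⟩
  intro h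
  have : A ∈ ({C, D} : Set (Finset (Fin n))) := by rw [← h]; simp
  rcases this with h' | h'
  · exact h4 h'
  · exact h5 h'

theorem rep_iff' {n : ℕ} (H : Finset (Finset (Fin n))) :
    RepeatedUnion H → Pool.Agent.Helper660.FU.Rep H := by
  rintro ⟨A, hA, B, hB, C, hC, D, hD, h1, h2, hu, h4⟩
  have d1 : Disjoint A B := Finset.disjoint_iff_inter_eq_empty.2 h1
  have d2 : Disjoint C D := Finset.disjoint_iff_inter_eq_empty.2 h2
  refine ⟨A, hA, B, hB, C, hC, D, hD, d1, d2, hu, ?_, ?_⟩
  · intro h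
    subst h
    apply h4
    have : B = D := by
      have e1 : (A ∪ B) \ A = B := by
        rw [Finset.union_sdiff_left, Finset.sdiff_eq_self_of_disjoint d1.symm]
      have e2 : (A ∪ D) \ A = D := by
        rw [Finset.union_sdiff_left, Finset.sdiff_eq_self_of_disjoint d2.symm]
      rw [← e1, hu, e2]
    rw [this]
  · intro h
    subst h
    apply h4
    have : B = C := by
      have e1 : (A ∪ B) \ A = B := by
        rw [Finset.union_sdiff_left, Finset.sdiff_eq_self_of_disjoint d1.symm]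
      have e2 : (C ∪ A) \ A = C := by
        rw [Finset.union_sdiff_right, Finset.sdiff_eq_self_of_disjoint d2]
      rw [← e1, hu, e2]
    rw [this]
    exact Set.pair_comm _ _

/-- Every 3-uniform hypergraph on `n` vertices with no repeated disjoint union has at most
`n choose 2` edges; consequently `f(n;3) / (n choose 2)` tends to `1`. -/
theorem result :
    (∀ (n : ℕ) (H : Finset (Finset (Fin n))), (∀ e ∈ H, e.card = 3) → ¬ RepeatedUnion H →
      H.card ≤ n.choose 2) ∧
    Filter.Tendsto (fun n : ℕ => (f n : ℝ) / (n.choose 2 : ℝ)) Filter.atTop (nhds 1) := by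
  have key : ∀ (n : ℕ) (H : Finset (Finset (Fin n))), (∀ e ∈ H, e.card = 3) → ¬ RepeatedUnion H →
      H.card ≤ n.choose 2 := by
    intro n H h3 hn
    have := Pool.Agent.Helper660.FU.main_bound H h3 (fun h => hn (rep_iff H h))
    rwa [Fintype.card_fin] at this
  have hf : ∀ n : ℕ, f n = sInf (Pool.Agent.Helper660.FU.Adm n) := by
    intro n
    unfold f Pool.Agent.Helper660.FU.Adm
    congr 1
    ext m
    constructor
    · intro h H h3 hm
      exact rep_iff' H (h H h3 hm)
    · intro h H h3 hm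
      exact rep_iff H (h H h3 hm)
  refine ⟨key, ?_⟩
  · have h := Pool.Agent.Helper660.FU.limit_one
    have e : (fun n : ℕ => (f n : ℝ) / (n.choose 2 : ℝ))
        = (fun n : ℕ => ((sInf (Pool.Agent.Helper660.FU.Adm n) : ℕ) : ℝ) / ((n.choose 2 : ℕ) : ℝ)) := by
      funext n
      rw [hf n]
    rw [e]
    exact h

end Pool.Agent.Results.MP_df5da3_co.FurediBound
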